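import Mathlib

/-!
# MP_f5f603_al: a connected noninvolutory quandle with two good involutions

The quandle is the set of the cosets of the subgroup generated by the 3-cycle `z = (0 1 2)` in the
alternating group on six letters, where the right translation by the coset of `y` is the
multiplication by the conjugate `y z y⁻¹`. The elements `(0 1)(3 4)` and `(0 1)(4 5)` of order two
invert `z` and give two different good involutions.
-/

set_option autoImplicit false

namespace Pool.Agent.Results.MP_f5f603_al.TwoGoodInvolutions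

/-- `R` with the operation `m x y = x * y` is a quandle: `x * x = x`, all right translations
`x ↦ x * y` are bijections, and `(x * y) * z = (x * z) * (y * z)`. -/
def IsQuandle {R : Type} (m : R → R → R) : Prop :=
  (∀ x, m x x = x) ∧ (∀ y, Function.Bijective fun x => m x y) ∧
    ∀ x y z, m (m x y) z = m (m x z) (m y z)

/-- The right translation `s_y : x ↦ x * y` as a permutation of `R`. -/
noncomputable def s {R : Type} {m : R → R → R} (h : IsQuandle m) (y : R) : Equiv.Perm R :=
  Equiv.ofBijective (fun x => m x y) (h.2.1 y)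

/-- The quandle is connected: the group generated by the right translations is transitive. -/
def IsConnected {R : Type} {m : R → R → R} (h : IsQuandle m) : Prop :=
  ∀ x y : R, ∃ g ∈ Subgroup.closure (Set.range (s h)), g x = y

/-- The quandle is involutory: `s_y ^ 2 = 1` for all `y`. -/
def IsInvolutory {R : Type} {m : R → R → R} (h : IsQuandle m) : Prop := ∀ y, s h y ^ 2 = 1

/-- `ρ` is a good involution: `ρ (ρ x) = x`, `ρ (x * y) = ρ x * y` and `s_{ρ y} = s_y⁻¹`. -/
def IsGoodInvolution {R : Type} {m : R → R → R} (h : IsQuandle m) (ρ : R → R) : Prop :=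
  (∀ x, ρ (ρ x) = x) ∧ (∀ x y, ρ (m x y) = m (ρ x) y) ∧ ∀ y, s h (ρ y) = (s h y)⁻¹

section general

variable {G : Type} [Group G] (z : G)

/-- The conjugate of `z` attached to a coset of `⟨z⟩`. -/
def cj : G ⧸ Subgroup.zpowers z → G :=
  Quotient.lift (fun y => y * z * y⁻¹) (by
    intro a b hab
    have h : a⁻¹ * b ∈ Subgroup.zpowers z := QuotientGroup.leftRel_apply.1 hab
    obtain ⟨k, hk⟩ := Subgroup.mem_zpowers_iff.1 h
    have hb : b = a * z ^ k := by rw [hk]; group
    rw [hb]
    group)

lemma cj_mk (y : G) : cj z (y : G ⧸ Subgroup.zpowers z) = y * z * y⁻¹ := rfl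

lemma cj_smul (g : G) (y : G ⧸ Subgroup.zpowers z) : cj z (g • y) = g * cj z y * g⁻¹ := by
  induction y using QuotientGroup.induction_on with
  | H y =>
    show cj z ((g * y : G) : G ⧸ Subgroup.zpowers z) = _
    rw [cj_mk, cj_mk]; group

/-- The operation. -/
def op (x y : G ⧸ Subgroup.zpowers z) : G ⧸ Subgroup.zpowers z := cj z y • x

lemma op_quandle : IsQuandle (op z) := by
  refine ⟨?_, ?_, ?_⟩
  · intro x
    induction x using QuotientGroup.induction_on with
    | H x =>
      show (((x * z * x⁻¹) * x : G) : G ⧸ Subgroup.zpowers z) = x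
      rw [QuotientGroup.eq]
      have : (x * z * x⁻¹ * x)⁻¹ * x = z⁻¹ := by group
      rw [this]
      exact Subgroup.inv_mem _ (Subgroup.mem_zpowers z)
  · intro y
    exact MulAction.bijective (cj z y)
  · intro x y w
    simp only [op]
    rw [cj_smul, smul_smul, smul_smul]
    congr 1
    group

lemma s_apply (y x : G ⧸ Subgroup.zpowers z) : s (op_quandle z) y x = cj z y • x := rfl

lemma connected (hz : Subgroup.closure (Set.range (cj z)) = ⊤) : IsConnected (op_quandle z) := by
  intro x y
  obtain ⟨g, hg⟩ := MulAction.exists_smul_eq G x y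
  refine ⟨MulAction.toPermHom G _ g, ?_, hg⟩
  have h1 : MulAction.toPermHom G (G ⧸ Subgroup.zpowers z) g ∈
      (Subgroup.closure (Set.range (cj z))).map (MulAction.toPermHom G (G ⧸ Subgroup.zpowers z)) := by
    rw [hz]
    exact ⟨g, trivial, rfl⟩
  rw [MonoidHom.map_closure] at h1
  refine Subgroup.closure_mono ?_ h1
  rintro _ ⟨_, ⟨y, rfl⟩, rfl⟩
  exact ⟨y, by ext x; rfl⟩

/-- The right multiplication by `n`. -/
def rho (n : G) (hn : n * z * n⁻¹ = z⁻¹) :
    G ⧸ Subgroup.zpowers z → G ⧸ Subgroup.zpowers z :=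
  Quotient.map (fun y => y * n) (by
    intro a b hab
    have h : a⁻¹ * b ∈ Subgroup.zpowers z := QuotientGroup.leftRel_apply.1 hab
    obtain ⟨k, hk⟩ := Subgroup.mem_zpowers_iff.1 h
    apply QuotientGroup.leftRel_apply.2
    have hb : b = a * z ^ k := by rw [hk]; group
    have h2 : n⁻¹ * z * n = z⁻¹ := by
      have : z = n⁻¹ * z⁻¹ * n := by rw [← hn]; group
      calc n⁻¹ * z * n = (n⁻¹ * z⁻¹ * n)⁻¹ := by group
        _ = z⁻¹ := by rw [← this]
    have h3 : (a * n)⁻¹ * (b * n) = (z⁻¹) ^ k := by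
      rw [hb, ← h2]
      have h4 := conj_zpow (i := k) (a := n⁻¹) (b := z)
      rw [inv_inv] at h4
      rw [h4]; group
    show (a * n)⁻¹ * (b * n) ∈ _
    rw [h3]
    exact Subgroup.zpow_mem _ (Subgroup.inv_mem _ (Subgroup.mem_zpowers z)) k)

lemma rho_mk (n : G) (hn : n * z * n⁻¹ = z⁻¹) (y : G) :
    rho z n hn (y : G ⧸ Subgroup.zpowers z) = ((y * n : G) : G ⧸ Subgroup.zpowers z) := rfl

lemma rho_good (n : G) (hn : n * z * n⁻¹ = z⁻¹) (hn2 : n * n = 1) :
    IsGoodInvolution (op_quandle z) (rho z n hn) := by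
  have hcj : ∀ y, cj z (rho z n hn y) = (cj z y)⁻¹ := by
    intro y
    induction y using QuotientGroup.induction_on with
    | H y =>
      rw [rho_mk, cj_mk, cj_mk]
      have : y * n * z * (y * n)⁻¹ = y * (n * z * n⁻¹) * y⁻¹ := by group
      rw [this, hn]; group
  refine ⟨?_, ?_, ?_⟩
  · intro x
    induction x using QuotientGroup.induction_on with
    | H x => rw [rho_mk, rho_mk, mul_assoc, hn2, mul_one]
  · intro x y
    simp only [op]
    generalize cj z y = g
    induction x using QuotientGroup.induction_on with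
    | H x =>
      show rho z n hn ((g * x : G) : G ⧸ Subgroup.zpowers z) =
        ((g * (x * n) : G) : G ⧸ Subgroup.zpowers z)
      rw [rho_mk, mul_assoc]
  · intro y
    ext x
    rw [s_apply, hcj, eq_comm, Equiv.Perm.inv_eq_iff_eq, s_apply, smul_smul, mul_inv_cancel,
      one_smul]

end general

/-- The 3-cycle `(0 1 2)`. -/
def z : alternatingGroup (Fin 6) :=
  ⟨Equiv.swap 0 1 * Equiv.swap 1 2, Equiv.Perm.mem_alternatingGroup.2 (by decide)⟩

/-- The element `(0 1)(3 4)`. -/
def n₁ : alternatingGroup (Fin 6) := 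
  ⟨Equiv.swap 0 1 * Equiv.swap 3 4, Equiv.Perm.mem_alternatingGroup.2 (by decide)⟩

/-- The element `(0 1)(4 5)`. -/
def n₂ : alternatingGroup (Fin 6) := 
  ⟨Equiv.swap 0 1 * Equiv.swap 4 5, Equiv.Perm.mem_alternatingGroup.2 (by decide)⟩

/-- The element `(2 3)(4 5)`. -/
def t : alternatingGroup (Fin 6) := 
  ⟨Equiv.swap 2 3 * Equiv.swap 4 5, Equiv.Perm.mem_alternatingGroup.2 (by decide)⟩

lemma fix_of_mem {g : alternatingGroup (Fin 6)} (hg : g ∈ Subgroup.zpowers z) :
    (g : Equiv.Perm (Fin 6)) 3 = 3 := by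
  obtain ⟨k, rfl⟩ := Subgroup.mem_zpowers_iff.1 hg
  have h : (z : Equiv.Perm (Fin 6)) 3 = 3 := by decide
  rw [Subgroup.coe_zpow]
  exact Equiv.Perm.zpow_apply_eq_self_of_apply_eq_self h k

lemma z_cycle : (z : Equiv.Perm (Fin 6)).IsThreeCycle := by
  rw [← card_support_eq_three_iff]
  decide

lemma gen : Subgroup.closure (Set.range (cj z)) = ⊤ := by
  rw [eq_top_iff, ← alternatingGroup.closure_isThreeCycles_eq_top]
  apply Subgroup.closure_mono
  intro g hg
  have h : IsConj z g := alternatingGroup.isThreeCycle_isConj (by simp) z_cycle hg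
  obtain ⟨c, hc⟩ := isConj_iff.1 h
  exact ⟨(c : alternatingGroup (Fin 6) ⧸ Subgroup.zpowers z), by rw [cj_mk, hc]⟩

/-- **Theorem.** There is a finite connected quandle that is not involutory and has two different
good involutions. -/
theorem result : ∃ (R : Type) (_ : Finite R) (m : R → R → R) (h : IsQuandle m),
    IsConnected h ∧ ¬ IsInvolutory h ∧
      ∃ ρ₁ ρ₂ : R → R, IsGoodInvolution h ρ₁ ∧ IsGoodInvolution h ρ₂ ∧ ρ₁ ≠ ρ₂ := by
  refine ⟨alternatingGroup (Fin 6) ⧸ Subgroup.zpowers z, inferInstance, op z, op_quandle z,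
    connected z gen, ?_, rho z n₁ (by decide), rho z n₂ (by decide), rho_good z n₁ _ (by decide),
    rho_good z n₂ _ (by decide), ?_⟩
  · intro h
    have h1 := h (t : alternatingGroup (Fin 6) ⧸ Subgroup.zpowers z)
    have h2 := congrArg (fun f : Equiv.Perm _ =>
      f ((1 : alternatingGroup (Fin 6)) : alternatingGroup (Fin 6) ⧸ Subgroup.zpowers z)) h1
    simp only [pow_two, Equiv.Perm.mul_apply, s_apply, Equiv.Perm.one_apply, cj_mk] at h2
    have h3 : (((t * z * t⁻¹) * ((t * z * t⁻¹) * 1) : alternatingGroup (Fin 6)) :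
      alternatingGroup (Fin 6) ⧸ Subgroup.zpowers z) = (1 : alternatingGroup (Fin 6)) := h2
    rw [QuotientGroup.eq] at h3
    have h4 := fix_of_mem h3
    revert h4
    decide
  · intro h
    have h1 := congrFun h ((1 : alternatingGroup (Fin 6)) :
      alternatingGroup (Fin 6) ⧸ Subgroup.zpowers z)
    rw [rho_mk, rho_mk, QuotientGroup.eq] at h1
    have h4 := fix_of_mem h1
    revert h4
    decide

end Pool.Agent.Results.MP_f5f603_al.TwoGoodInvolutions
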